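import Pool.Agent.V5helper18.Deg.C

/-!
# Chains of maps, part A: linear algebra
-/

set_option autoImplicit false

open Set Metric Topology Filter

namespace Pool.Agent.V5helper18.Ch

section sign

theorem sign_const {X : Type*} [TopologicalSpace X] {S : Set X} (hS : IsPreconnected S)
    {f : X → ℝ} (hf : ContinuousOn f S) (h0 : ∀ x ∈ S, f x ≠ 0) {x y : X} (hx : x ∈ S)
    (hy : y ∈ S) : 0 < f x * f y := by
  by_contra hneg
  have hne := mul_ne_zero (h0 x hx) (h0 y hy)
  have hlt : f x * f y < 0 := lt_of_le_of_ne (not_lt.1 hneg) hne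
  rcases mul_neg_iff.1 hlt with ⟨h1, h2⟩ | ⟨h1, h2⟩
  · obtain ⟨z, hz, hz0⟩ := hS.intermediate_value hy hx hf ⟨h2.le, h1.le⟩
    exact h0 z hz hz0
  · obtain ⟨z, hz, hz0⟩ := hS.intermediate_value hx hy hf ⟨h1.le, h2.le⟩
    exact h0 z hz hz0

end sign

section lin

variable {V : Type*} [NormedAddCommGroup V] [NormedSpace ℝ V] [FiniteDimensional ℝ V]

theorem det_ne_zero_of_inj {A : V →L[ℝ] V} (h : ∀ v, A v = 0 → v = 0) : A.det ≠ 0 := by
  intro h0
  have h1 := LinearMap.bot_lt_ker_of_det_eq_zero (f := (A : V →ₗ[ℝ] V)) h0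
  apply h1.ne'
  rw [LinearMap.ker_eq_bot']
  exact h

theorem det_mul (A B : V →L[ℝ] V) : (A * B).det = A.det * B.det := by
  simp only [ContinuousLinearMap.det]
  rw [← LinearMap.det_comp]
  rfl

theorem det_hom (A P : V →L[ℝ] V) (hP : ∀ v, P (P v) = P v) (hAP : ∀ v, A (P v) = P (A v))
    (hs : ∀ τ ∈ Icc (0 : ℝ) 1, ∀ v, P v = 0 → v = τ • A v → v = 0)
    (hu : ∀ τ ∈ Icc (0 : ℝ) 1, ∀ v, P v = v → A v = τ • v → v = 0) :
    0 < (1 - A).det * ((1 - P) - A * P).det := by
  set K : ℝ → (V →L[ℝ] V) := fun τ => (1 - P) - τ • (A * (1 - P)) + τ • P - A * P with hK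
  have hKc : Continuous K := by
    simp only [hK]; fun_prop
  have h1 : K 1 = 1 - A := by
    simp only [hK, one_smul, mul_sub, mul_one]; abel
  have h0 : K 0 = (1 - P) - A * P := by
    simp only [hK, zero_smul]; abel
  rw [← h1, ← h0]
  apply sign_const (S := Icc (0 : ℝ) 1) isPreconnected_Icc (f := fun τ => (K τ).det)
    (ContinuousLinearMap.continuous_det.comp hKc).continuousOn ?_ ⟨zero_le_one, le_rfl⟩
    ⟨le_rfl, zero_le_one⟩
  intro τ hτ
  apply det_ne_zero_of_inj
  intro v hv
  have e1 : (v - P v) - τ • A (v - P v) + τ • P v - A (P v) = 0 := by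
    simpa [hK] using hv
  have hPP : P (v - P v) = 0 := by rw [map_sub, hP, sub_self]
  have e2 : τ • P v - A (P v) = 0 := by
    have := congrArg P e1
    rw [map_sub, map_add, map_sub, map_smul, map_smul, ← hAP, hPP, map_zero, hP, ← hAP, hP,
      map_zero, smul_zero, sub_zero, zero_add] at this
    exact this
  have e3 : P v = 0 := hu τ hτ (P v) (hP v) (sub_eq_zero.1 e2).symm
  rw [e3] at e1
  simp only [sub_zero, smul_zero, add_zero, map_zero] at e1
  exact hs τ hτ v e3 (sub_eq_zero.1 e1)

/-- The transport between two nearby projections. -/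
noncomputable def tr (P' P : V →L[ℝ] V) : V →L[ℝ] V := P' * P + (1 - P') * (1 - P)

omit [FiniteDimensional ℝ V] in
theorem tr_comm {P' P : V →L[ℝ] V} (h' : P' * P' = P') (h : P * P = P) :
    P' * tr P' P = tr P' P * P := by
  unfold tr
  rw [mul_add, add_mul, ← mul_assoc, h', ← mul_assoc P' (1 - P'), mul_sub P' 1 P', mul_one, h',
    sub_self, zero_mul, add_zero, mul_assoc P' P P, h, mul_assoc, sub_mul 1 P P, one_mul, h,
    sub_self, mul_zero, add_zero]

omit [FiniteDimensional ℝ V] in
theorem tr_sub_one {P' P : V →L[ℝ] V} (h : P * P = P) :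
    tr P' P = 1 + (P' - P) * (2 * P - 1) := by
  have e : (P' - P) * (2 * P - 1) = P' * P + P' * P - P' - (P * P + P * P) + P := by
    rw [two_mul]; noncomm_ring
  rw [e, h]
  unfold tr
  noncomm_ring

theorem tr_det {P' P : V →L[ℝ] V} (h : P * P = P) (hn : ‖P' - P‖ * ‖2 * P - 1‖ < 1) :
    (tr P' P).det ≠ 0 := by
  rw [tr_sub_one h]
  apply ne_of_gt
  exact Pool.Agent.H815.HF.Brouwer.det_pos_of_norm_lt _ ((norm_mul_le _ _).trans_lt hn)

theorem exists_triv (c : V) {R : ℝ} (hR : 0 ≤ R) (P : V → (V →L[ℝ] V))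
    (hc : ContinuousOn P (closedBall c R)) (hP : ∀ z ∈ closedBall c R, P z * P z = P z) :
    ∃ U : V → (V →L[ℝ] V), ContinuousOn U (closedBall c R) ∧ ∀ z ∈ closedBall c R,
      (U z).det ≠ 0 ∧ P z * U z = U z * P c := by
  have hK : IsCompact (closedBall c R) := isCompact_closedBall c R
  obtain ⟨B, hB0, hB⟩ : ∃ B : ℝ, 0 < B ∧ ∀ z ∈ closedBall c R, ‖2 * P z - 1‖ ≤ B := by
    obtain ⟨B, hB⟩ := hK.exists_bound_of_continuousOn (f := fun z => 2 * P z - 1)
      ((continuousOn_const.mul hc).sub continuousOn_const)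
    exact ⟨max B 1, by positivity, fun z hz => (hB z hz).trans (le_max_left _ _)⟩
  have huc := hK.uniformContinuousOn_of_continuous hc
  rw [Metric.uniformContinuousOn_iff] at huc
  obtain ⟨δ, hδ, huc⟩ := huc (1 / (2 * B)) (by positivity)
  obtain ⟨N, hN⟩ := exists_nat_gt (R / δ)
  have hN0 : (0 : ℝ) < N := lt_of_le_of_lt (by positivity) hN
  set p : ℕ → V → V := fun k z => c + ((k : ℝ) / N) • (z - c) with hp
  have hpm : ∀ k ≤ N, ∀ z ∈ closedBall c R, p k z ∈ closedBall c R := by
    intro k hk z hz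
    rw [mem_closedBall_iff_norm] at hz ⊢
    simp only [hp, add_sub_cancel_left]
    rw [norm_smul, Real.norm_eq_abs, abs_of_nonneg (by positivity)]
    have h1 : (k : ℝ) / N ≤ 1 := by
      rw [div_le_one hN0]; exact_mod_cast hk
    calc (k : ℝ) / N * ‖z - c‖ ≤ 1 * ‖z - c‖ := mul_le_mul_of_nonneg_right h1 (norm_nonneg _)
      _ ≤ R := by rw [one_mul]; exact hz
  have hpc : ∀ k, Continuous (p k) := by
    intro k; simp only [hp]; fun_prop
  have hpd : ∀ k, ∀ z ∈ closedBall c R, dist (p (k + 1) z) (p k z) < δ := by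
    intro k z hz
    rw [mem_closedBall_iff_norm] at hz
    rw [dist_eq_norm]
    have : p (k + 1) z - p k z = (1 / (N : ℝ)) • (z - c) := by
      simp only [hp, add_sub_add_left_eq_sub, ← sub_smul]
      congr 1
      push_cast
      ring
    rw [this, norm_smul, Real.norm_eq_abs, abs_of_nonneg (by positivity), one_div,
      inv_mul_lt_iff₀ hN0]
    rw [div_lt_iff₀ hδ] at hN
    linarith
  have key : ∀ k ≤ N, ∃ U : V → (V →L[ℝ] V), ContinuousOn U (closedBall c R) ∧
      ∀ z ∈ closedBall c R, (U z).det ≠ 0 ∧ P (p k z) * U z = U z * P c := by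
    intro k
    induction k with
    | zero =>
      intro _
      refine ⟨fun _ => 1, continuousOn_const, fun z hz => ⟨?_, ?_⟩⟩
      · exact det_ne_zero_of_inj (fun v hv => by simpa using hv)
      · simp [hp]
    | succ k ih =>
      intro hk
      obtain ⟨U, hU1, hU2⟩ := ih (by omega)
      have hc1 : ContinuousOn (fun z => P (p (k + 1) z)) (closedBall c R) :=
        hc.comp (hpc _).continuousOn (fun z hz => hpm _ hk z hz)
      have hc0 : ContinuousOn (fun z => P (p k z)) (closedBall c R) :=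
        hc.comp (hpc _).continuousOn (fun z hz => hpm _ (by omega) z hz)
      refine ⟨fun z => tr (P (p (k + 1) z)) (P (p k z)) * U z, ?_, ?_⟩
      · unfold tr
        exact ((hc1.mul hc0).add ((continuousOn_const.sub hc1).mul
          (continuousOn_const.sub hc0))).mul hU1
      · intro z hz
        have m1 := hpm (k + 1) hk z hz
        have m0 := hpm k (by omega) z hz
        constructor
        · rw [det_mul]
          refine mul_ne_zero (tr_det (hP _ m0) ?_) (hU2 z hz).1
          have h1 : ‖P (p (k + 1) z) - P (p k z)‖ < 1 / (2 * B) := by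
            rw [← dist_eq_norm]
            exact huc _ m1 _ m0 (hpd k z hz)
          have h2 := hB _ m0
          calc ‖P (p (k + 1) z) - P (p k z)‖ * ‖2 * P (p k z) - 1‖
              ≤ 1 / (2 * B) * B := mul_le_mul h1.le h2 (norm_nonneg _) (by positivity)
            _ = 1 / 2 := by field_simp
            _ < 1 := by norm_num
        · rw [← mul_assoc, tr_comm (hP _ m1) (hP _ m0), mul_assoc, (hU2 z hz).2, mul_assoc]
  obtain ⟨U, hU1, hU2⟩ := key N le_rfl
  refine ⟨U, hU1, fun z hz => ⟨(hU2 z hz).1, ?_⟩⟩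
  have : p N z = z := by
    simp only [hp]
    rw [div_self hN0.ne', one_smul]; abel
  have h := (hU2 z hz).2
  rwa [this] at h

end lin

section ops

variable {E : Type*} [NormedAddCommGroup E] [NormedSpace ℝ E]
  {ι : Type*} [Fintype ι]

/-- block diagonal operator -/
noncomputable def diagOp (P : ι → E →L[ℝ] E) : (ι → E) →L[ℝ] (ι → E) :=
  ContinuousLinearMap.pi fun i => (P i).comp (ContinuousLinearMap.proj i)

/-- block shift operator -/
noncomputable def shiftOp (pr : ι → ι) (A : ι → E →L[ℝ] E) : (ι → E) →L[ℝ] (ι → E) :=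
  ContinuousLinearMap.pi fun i => (A i).comp (ContinuousLinearMap.proj (pr i))

omit [Fintype ι] in
@[simp] theorem diagOp_apply (P : ι → E →L[ℝ] E) (v : ι → E) (i : ι) :
    diagOp P v i = P i (v i) := rfl

omit [Fintype ι] in
@[simp] theorem shiftOp_apply (pr : ι → ι) (A : ι → E →L[ℝ] E) (v : ι → E) (i : ι) :
    shiftOp pr A v i = A i (v (pr i)) := rfl

theorem diagOp_cont {X : Type*} [TopologicalSpace X] {S : Set X} {P : ι → X → E →L[ℝ] E}
    (h : ∀ i, ContinuousOn (P i) S) : ContinuousOn (fun x => diagOp (fun i => P i x)) S := by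
  classical
  have e : (fun x => diagOp (fun i => P i x)) = fun x => ∑ i, (ContinuousLinearMap.single ℝ
      (fun _ : ι => E) i).comp ((P i x).comp (ContinuousLinearMap.proj i)) := by
    ext1 x
    ext v j
    simp [ContinuousLinearMap.sum_apply, Finset.sum_apply, Pi.single_apply]
  rw [e]
  apply continuousOn_finsetSum
  intro i _
  exact continuousOn_const.clm_comp ((h i).clm_comp continuousOn_const)

theorem shiftOp_cont {X : Type*} [TopologicalSpace X] {S : Set X} {pr : ι → ι}
    {P : ι → X → E →L[ℝ] E}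
    (h : ∀ i, ContinuousOn (P i) S) : ContinuousOn (fun x => shiftOp pr (fun i => P i x)) S := by
  classical
  have e : (fun x => shiftOp pr (fun i => P i x)) = fun x => ∑ i, (ContinuousLinearMap.single ℝ
      (fun _ : ι => E) i).comp ((P i x).comp (ContinuousLinearMap.proj (pr i))) := by
    ext1 x
    ext v j
    simp [ContinuousLinearMap.sum_apply, Finset.sum_apply, Pi.single_apply]
  rw [e]
  apply continuousOn_finsetSum
  intro i _
  exact continuousOn_const.clm_comp ((h i).clm_comp continuousOn_const)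

end ops

end Pool.Agent.V5helper18.Ch
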