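import Pool.Agent.V5helper18.Ch.A

/-!
# Chains of maps, part B: the index count
-/

set_option autoImplicit false

open Set Metric Topology Filter

namespace Pool.Agent.V5helper18.Ch

variable {E : Type*} [NormedAddCommGroup E] [NormedSpace ℝ E] [FiniteDimensional ℝ E]
  {ι : Type*} [Fintype ι]

theorem chain_sign {pr : ι → ι} (hpr : Function.Surjective pr) {c : ι → E} {r R : ℝ} (hr : 0 < r)
    (hrR : r ≤ R) {P : ι → E → (E →L[ℝ] E)} {F : ι → E → E}
    (hPc : ∀ j, ContinuousOn (P j) (closedBall (c j) R))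
    (hPP : ∀ j, ∀ z ∈ closedBall (c j) R, P j z * P j z = P j z)
    (hF : ∀ j, ContinuousOn (F j) (ball (c (pr j)) r))
    (hF' : ∀ j, ContinuousOn (fderiv ℝ (F j)) (ball (c (pr j)) r))
    (hmaps : ∀ j, ∀ z ∈ ball (c (pr j)) r, F j z ∈ closedBall (c j) R)
    (hinj : ∀ j, ∀ z ∈ ball (c (pr j)) r, ∀ v, fderiv ℝ (F j) z v = 0 → v = 0)
    (hcomm : ∀ j, ∀ z ∈ ball (c (pr j)) r, ∀ v,
      fderiv ℝ (F j) z (P (pr j) z v) = P j (F j z) (fderiv ℝ (F j) z v)) :
    ∃ σ : ℝ, ∀ y ∈ ball c r, (∀ j, F j (y (pr j)) = y j) →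
      0 < σ * ((1 - diagOp (fun j => P j (y j))) -
        (shiftOp pr (fun j => fderiv ℝ (F j) (y (pr j)))) * diagOp (fun j => P j (y j))).det := by
  have hR : 0 ≤ R := hr.le.trans hrR
  have htriv := fun j => exists_triv (c j) hR (P j) (hPc j) (hPP j)
  choose U hU1 hU2 using htriv
  have hb : ∀ y ∈ ball c r, ∀ j, y j ∈ ball (c j) r := by
    intro y hy j
    rw [mem_ball] at hy ⊢
    exact (dist_le_pi_dist y c j).trans_lt hy
  have hbR : ∀ y ∈ ball c r, ∀ j, y j ∈ closedBall (c j) R := fun y hy j =>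
    closedBall_subset_closedBall hrR (ball_subset_closedBall (hb y hy j))
  -- the operator field
  set L : (ι → E) → ((ι → E) →L[ℝ] (ι → E)) := fun y =>
    diagOp (fun j => U j (F j (y (pr j))) * (1 - P j (c j))) -
      shiftOp pr (fun j => fderiv ℝ (F j) (y (pr j)) * (U (pr j) (y (pr j)) * P (pr j) (c (pr j))))
    with hL
  set D : (ι → E) → ((ι → E) →L[ℝ] (ι → E)) := fun y => diagOp (fun j => U j (y j)) with hD
  have hcoord : ∀ j, ContinuousOn (fun y : ι → E => y (pr j)) (ball c r) :=
    fun j => (continuous_apply (pr j)).continuousOn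
  have hLc : ContinuousOn L (ball c r) := by
    apply ContinuousOn.sub
    · apply diagOp_cont (P := fun j (y : ι → E) => U j (F j (y (pr j))) * (1 - P j (c j)))
      intro j
      refine ContinuousOn.mul ?_ continuousOn_const
      exact (hU1 j).comp ((hF j).comp (hcoord j) (fun y hy => hb y hy _))
        (fun y hy => hmaps j _ (hb y hy _))
    · apply shiftOp_cont (P := fun j (y : ι → E) => fderiv ℝ (F j) (y (pr j)) *
        (U (pr j) (y (pr j)) * P (pr j) (c (pr j))))
      intro j
      refine ContinuousOn.mul ((hF' j).comp (hcoord j) (fun y hy => hb y hy _)) ?_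
      refine ContinuousOn.mul ?_ continuousOn_const
      exact (hU1 (pr j)).comp (hcoord j) (fun y hy => hbR y hy _)
  have hDc : ContinuousOn D (ball c r) := by
    apply diagOp_cont (P := fun j (y : ι → E) => U j (y j))
    intro j
    exact (hU1 j).comp (continuous_apply j).continuousOn (fun y hy => hbR y hy _)
  have hUinj : ∀ j, ∀ z ∈ closedBall (c j) R, ∀ v, U j z v = 0 → v = 0 := by
    intro j z hz v hv
    let e := ContinuousLinearMap.toContinuousLinearEquivOfDetNeZero (U j z) (hU2 j z hz).1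
    have : e v = e 0 := by
      simpa [e] using hv
    exact e.injective this
  have hcc : ∀ j, c j ∈ closedBall (c j) R := fun j => mem_closedBall_self hR
  have hPPc : ∀ j, ∀ z ∈ closedBall (c j) R, ∀ v, P j z (P j z v) = P j z v := by
    intro j z hz v
    have := congrArg (fun T : E →L[ℝ] E => T v) (hPP j z hz)
    simpa using this
  have hPU : ∀ j, ∀ z ∈ closedBall (c j) R, ∀ v, P j z (U j z v) = U j z (P j (c j) v) := by
    intro j z hz v
    have := congrArg (fun T : E →L[ℝ] E => T v) (hU2 j z hz).2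
    simpa using this
  have hLne : ∀ y ∈ ball c r, (L y).det ≠ 0 := by
    intro y hy
    apply det_ne_zero_of_inj
    intro v hv
    have h1 : ∀ j, U j (F j (y (pr j))) (v j - P j (c j) (v j)) =
        fderiv ℝ (F j) (y (pr j)) (U (pr j) (y (pr j)) (P (pr j) (c (pr j)) (v (pr j)))) := by
      intro j
      have := congrFun hv j
      simpa [hL, sub_eq_zero] using this
    have h2 : ∀ j, P j (F j (y (pr j))) (U j (F j (y (pr j))) (v j - P j (c j) (v j))) = 0 := by
      intro j
      rw [hPU j _ (hmaps j _ (hb y hy _)), map_sub, hPPc j _ (hcc j), sub_self, map_zero]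
    have h3 : ∀ j, P j (F j (y (pr j))) (fderiv ℝ (F j) (y (pr j)) (U (pr j) (y (pr j))
        (P (pr j) (c (pr j)) (v (pr j))))) = fderiv ℝ (F j) (y (pr j)) (U (pr j) (y (pr j))
          (P (pr j) (c (pr j)) (v (pr j)))) := by
      intro j
      rw [← hcomm j _ (hb y hy _), hPU (pr j) _ (hbR y hy _), hPPc _ _ (hcc _)]
    have h4 : ∀ j, fderiv ℝ (F j) (y (pr j)) (U (pr j) (y (pr j))
          (P (pr j) (c (pr j)) (v (pr j)))) = 0 := by
      intro j
      rw [← h3, ← h1, h2]
    have h5 : ∀ j, P (pr j) (c (pr j)) (v (pr j)) = 0 := by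
      intro j
      exact hUinj _ _ (hbR y hy _) _ (hinj j _ (hb y hy _) _ (h4 j))
    funext j
    obtain ⟨k, rfl⟩ := hpr j
    have h6 := h1 (pr k)
    rw [h4, h5, sub_zero] at h6
    exact hUinj _ _ (hmaps _ _ (hb y hy _)) _ h6
  have hDne : ∀ y ∈ ball c r, (D y).det ≠ 0 := by
    intro y hy
    apply det_ne_zero_of_inj
    intro v hv
    funext j
    have := congrFun hv j
    exact hUinj j _ (hbR y hy j) _ this
  refine ⟨(L c).det * (D c).det, fun y hy hchain => ?_⟩
  set X := ((1 - diagOp (fun j => P j (y j))) -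
        (shiftOp pr (fun j => fderiv ℝ (F j) (y (pr j)))) * diagOp (fun j => P j (y j))) with hX
  have hXL : X * D y = L y := by
    ext v j
    have e1 := hPU j _ (hbR y hy j) (v j)
    have e2 := hPU (pr j) _ (hbR y hy (pr j)) (v (pr j))
    simp [hX, hD, hL, e1, e2, hchain j]
  have hpos := sign_const (S := ball c r) (convex_ball c r).isPreconnected
    (f := fun y => (L y).det * (D y).det)
    ((ContinuousLinearMap.continuous_det.comp_continuousOn hLc).mul
      (ContinuousLinearMap.continuous_det.comp_continuousOn hDc))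
    (fun y hy => mul_ne_zero (hLne y hy) (hDne y hy)) (mem_ball_self hr) hy
  have e3 : (L y).det = X.det * (D y).det := by rw [← hXL, det_mul]
  simp only [e3] at hpos
  have e4 : 0 < (D y).det * (D y).det := mul_self_pos.2 (hDne y hy)
  have e5 : (L c).det * (D c).det * (X.det * (D y).det * (D y).det) =
      (L c).det * (D c).det * X.det * ((D y).det * (D y).det) := by ring
  rw [e5] at hpos
  exact (pos_iff_pos_of_mul_pos hpos).2 e4

theorem chain_unique {pr : ι → ι} (hpr : Function.Surjective pr) {c : ι → E} {r R : ℝ}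
    (hr : 0 < r) (hrR : r ≤ R) {P : ι → E → (E →L[ℝ] E)} {F G : ι → E → E} {Ω : ι → Set E}
    (hΩ : ∀ j, IsOpen (Ω j)) (hΩc : ∀ j, closedBall (c j) r ⊆ Ω j)
    (hPc : ∀ j, ContinuousOn (P j) (closedBall (c j) R))
    (hPP : ∀ j, ∀ z ∈ closedBall (c j) R, P j z * P j z = P j z)
    (hF : ∀ j, ContDiffOn ℝ 1 (F j) (Ω (pr j)))
    (hG : ∀ j, ContDiffOn ℝ 1 (G j) (Ω (pr j)))
    (hmaps : ∀ j, ∀ z ∈ ball (c (pr j)) r, F j z ∈ closedBall (c j) R)
    (hinj : ∀ j, ∀ z ∈ ball (c (pr j)) r, ∀ v, fderiv ℝ (F j) z v = 0 → v = 0)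
    (hcomm : ∀ j, ∀ z ∈ ball (c (pr j)) r, ∀ v,
      fderiv ℝ (F j) z (P (pr j) z v) = P j (F j z) (fderiv ℝ (F j) z v))
    (hs : ∀ y ∈ ball c r, (∀ j, F j (y (pr j)) = y j) → ∀ τ ∈ Icc (0 : ℝ) 1, ∀ v : ι → E,
      (∀ j, P j (y j) (v j) = 0) → (∀ j, v j = τ • fderiv ℝ (F j) (y (pr j)) (v (pr j))) → v = 0)
    (hu : ∀ y ∈ ball c r, (∀ j, F j (y (pr j)) = y j) → ∀ τ ∈ Icc (0 : ℝ) 1, ∀ v : ι → E,
      (∀ j, P j (y j) (v j) = v j) → (∀ j, fderiv ℝ (F j) (y (pr j)) (v (pr j)) = τ • v j) → v = 0)
    (hGc : ∀ j, G j (c (pr j)) = c j)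
    (hGu : ∀ y ∈ ball c r, (∀ j, G j (y (pr j)) = y j) → y = c)
    (hGnd : ∀ v : ι → E, (∀ j, fderiv ℝ (G j) (c (pr j)) (v (pr j)) = v j) → v = 0)
    (hfr : ∀ t ∈ Icc (0 : ℝ) 1, ∀ y ∈ closedBall c r,
      (∀ j, y j = (1 - t) • G j (y (pr j)) + t • F j (y (pr j))) → y ∈ ball c r) :
    ∃ y ∈ ball c r, (∀ j, F j (y (pr j)) = y j) ∧
      ∀ y' ∈ ball c r, (∀ j, F j (y' (pr j)) = y' j) → y' = y := by
  have hbc : ∀ y ∈ closedBall c r, ∀ j, y j ∈ closedBall (c j) r := by
    intro y hy j
    rw [mem_closedBall] at hy ⊢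
    exact (dist_le_pi_dist y c j).trans hy
  have hΩb : ∀ j, ball (c j) r ⊆ Ω j := fun j => ball_subset_closedBall.trans (hΩc j)
  obtain ⟨σ, hσ⟩ := chain_sign hpr hr hrR hPc hPP
    (fun j => ((hF j).continuousOn).mono (hΩb _))
    (fun j => (((hF j).continuousOn_fderiv_of_isOpen (hΩ _) le_rfl)).mono (hΩb _))
    hmaps hinj hcomm
  -- the open set and a cut-off
  set Om : Set (ι → E) := Set.pi univ Ω with hOm
  have hOmo : IsOpen Om := isOpen_set_pi finite_univ (fun j _ => hΩ j)
  have hOmc : closedBall c r ⊆ Om := fun y hy j _ => hΩc j (hbc y hy j)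
  obtain ⟨K, hK, hcK, hKO⟩ := exists_compact_between (isCompact_closedBall c r) hOmo hOmc
  obtain ⟨K', hK', hKK', hKO'⟩ := exists_compact_between hK hOmo hKO
  obtain ⟨χ, χs, χr, χo, χ1⟩ := exists_contMDiff_support_eq_eq_one_iff (n := 1)
    (modelWithCornersSelf ℝ (ι → E)) isOpen_interior hK.isClosed hKK'
  have χc : ContDiff ℝ 1 χ := contMDiff_iff_contDiff.1 χs
  -- extension of maps
  have ext : ∀ H : ι → E → E, (∀ j, ContDiffOn ℝ 1 (H j) (Ω (pr j))) →
      ContDiff ℝ 1 (fun y : ι → E => χ y • ((fun j => y j - H j (y (pr j))) : ι → E)) := by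
    intro H hH
    rw [contDiff_iff_contDiffAt]
    intro y
    by_cases hy : y ∈ Om
    · apply (χc.contDiffAt).smul
      rw [contDiffAt_pi]
      intro j
      apply ContDiffAt.sub
      · exact (contDiff_apply ℝ E j).contDiffAt
      · have h1 : ContDiffAt ℝ 1 (H j) (y (pr j)) :=
          (hH j).contDiffAt ((hΩ _).mem_nhds (hy (pr j) trivial))
        exact ContDiffAt.comp y h1 (contDiff_apply ℝ E (pr j)).contDiffAt
    · have h0 : (fun y : ι → E => χ y • ((fun j => y j - H j (y (pr j))) : ι → E)) =ᶠ[𝓝 y]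
          fun _ => 0 := by
        have h2 : y ∈ K'ᶜ := fun h => hy (hKO' h)
        filter_upwards [hK'.isClosed.isOpen_compl.mem_nhds h2] with z hz
        have : χ z = 0 := by
          by_contra hne
          have : z ∈ Function.support χ := hne
          rw [χo] at this
          exact hz (interior_subset this)
        rw [this, zero_smul]
      exact contDiffAt_const.congr_of_eventuallyEq h0
  have near : ∀ H : ι → E → E, ∀ y ∈ closedBall c r,
      (fun y : ι → E => χ y • ((fun j => y j - H j (y (pr j))) : ι → E)) =ᶠ[𝓝 y]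
        fun y => ((fun j => y j - H j (y (pr j))) : ι → E) := by
    intro H y hy
    filter_upwards [isOpen_interior.mem_nhds (hcK hy)] with z hz
    have : χ z = 1 := (χ1 z).1 (interior_subset hz)
    rw [this, one_smul]
  have val : ∀ H : ι → E → E, ∀ y ∈ closedBall c r,
      χ y • ((fun j => y j - H j (y (pr j))) : ι → E) = fun j => y j - H j (y (pr j)) :=
    fun H y hy => (near H y hy).eq_of_nhds
  have der : ∀ H : ι → E → E, (∀ j, ContDiffOn ℝ 1 (H j) (Ω (pr j))) → ∀ y ∈ closedBall c r,
      fderiv ℝ (fun y : ι → E => χ y • ((fun j => y j - H j (y (pr j))) : ι → E)) y =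
        1 - shiftOp pr (fun j => fderiv ℝ (H j) (y (pr j))) := by
    intro H hH y hy
    rw [(near H y hy).fderiv_eq]
    apply HasFDerivAt.fderiv
    rw [hasFDerivAt_pi']
    intro j
    have h1 : HasFDerivAt (H j) (fderiv ℝ (H j) (y (pr j))) (y (pr j)) :=
      (((hH j).contDiffAt ((hΩ _).mem_nhds (hOmc hy (pr j) trivial))).differentiableAt
        (by norm_num)).hasFDerivAt
    have h2 : HasFDerivAt (fun y : ι → E => y (pr j))
        (ContinuousLinearMap.proj (pr j) : (ι → E) →L[ℝ] E) y :=
      (ContinuousLinearMap.proj (pr j) : (ι → E) →L[ℝ] E).hasFDerivAt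
    have h3 : HasFDerivAt (fun y : ι → E => y j)
        (ContinuousLinearMap.proj j : (ι → E) →L[ℝ] E) y :=
      (ContinuousLinearMap.proj j : (ι → E) →L[ℝ] E).hasFDerivAt
    have h4 : HasFDerivAt (fun y : ι → E => H j (y (pr j)))
      ((fderiv ℝ (H j) (y (pr j))).comp (ContinuousLinearMap.proj (pr j) : (ι → E) →L[ℝ] E)) y :=
      h1.comp y h2
    have h5 : HasFDerivAt (fun y : ι → E => y j - H j (y (pr j)))
      ((ContinuousLinearMap.proj j : (ι → E) →L[ℝ] E) - (fderiv ℝ (H j) (y (pr j))).comp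
        (ContinuousLinearMap.proj (pr j) : (ι → E) →L[ℝ] E)) y := h3.sub h4
    exact h5
  have hbsub : ball c r ⊆ closedBall c r := ball_subset_closedBall
  have hzero : ∀ H : ι → E → E, ∀ y ∈ closedBall c r,
      (χ y • ((fun j => y j - H j (y (pr j))) : ι → E) = 0 ↔ ∀ j, H j (y (pr j)) = y j) := by
    intro H y hy
    rw [val H y hy]
    constructor
    · intro h j
      have := congrFun h j
      exact (sub_eq_zero.1 this).symm
    · intro h
      funext j
      simp [h j]
  obtain ⟨z, hz1, hz2, hz3⟩ := Deg.unique_zero (ext G hG) (ext F hF) (O := ball c r) isOpen_ball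
    isBounded_ball (z₀ := c) (σ := σ) (by
      intro t ht y hy h0
      rw [frontier_ball c hr.ne'] at hy
      have hyc : y ∈ closedBall c r := sphere_subset_closedBall hy
      rw [val G y hyc, val F y hyc] at h0
      have h1 := hfr t ht y hyc (by
        intro j
        have := congrFun h0 j
        simp only [Pi.add_apply, Pi.smul_apply, Pi.zero_apply, smul_sub] at this
        have e : (1 - t) • y j + t • y j = y j := by rw [← add_smul]; simp
        rw [← sub_eq_zero, ← this]
        nth_rewrite 1 [← e]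
        abel)
      rw [mem_sphere] at hy
      rw [mem_ball] at h1
      linarith) (mem_ball_self hr) ((hzero G c (mem_closedBall_self hr.le)).2 hGc) (by
      intro y hy h0
      exact hGu y hy ((hzero G y (hbsub hy)).1 h0)) (by
      rw [der G hG c (mem_closedBall_self hr.le)]
      apply det_ne_zero_of_inj
      intro v hv
      apply hGnd
      intro j
      have := congrFun hv j
      exact (sub_eq_zero.1 this).symm) (by
      intro y hy h0
      have hch := (hzero F y (hbsub hy)).1 h0
      rw [der F hF y (hbsub hy)]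
      have h1 := hσ y hy hch
      have hyR : ∀ j, y j ∈ closedBall (c j) R := fun j =>
        closedBall_subset_closedBall hrR (hbc y (hbsub hy) j)
      have hyb : ∀ j, y j ∈ ball (c j) r := fun j => by
        rw [mem_ball] at hy ⊢
        exact (dist_le_pi_dist y c j).trans_lt hy
      have h2 := det_hom (shiftOp pr (fun j => fderiv ℝ (F j) (y (pr j))))
        (diagOp (fun j => P j (y j))) (by
          intro v
          funext j
          have := congrArg (fun T : E →L[ℝ] E => T (v j)) (hPP j _ (hyR j))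
          simpa using this) (by
          intro v
          funext j
          simp only [shiftOp_apply, diagOp_apply]
          rw [hcomm j _ (hyb _), hch j]) (by
          intro τ hτ v h3 h4
          exact hs y hy hch τ hτ v (fun j => congrFun h3 j) (fun j => congrFun h4 j)) (by
          intro τ hτ v h3 h4
          exact hu y hy hch τ hτ v (fun j => congrFun h3 j) (fun j => congrFun h4 j))
      set a := (1 - shiftOp pr (fun j => fderiv ℝ (F j) (y (pr j)))).det
      set b := ((1 - diagOp (fun j => P j (y j))) -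
        (shiftOp pr (fun j => fderiv ℝ (F j) (y (pr j)))) * diagOp (fun j => P j (y j))).det
      have h3 : 0 < (σ * b) * (a * b) := mul_pos h1 h2
      have h4 : b ≠ 0 := by
        intro h; rw [h] at h1; simp at h1
      have h5 : (σ * b) * (a * b) = (σ * a) * (b * b) := by ring
      rw [h5] at h3
      exact (pos_iff_pos_of_mul_pos h3).2 (mul_self_pos.2 h4))
  refine ⟨z, hz1, (hzero F z (hbsub hz1)).1 hz2, fun y hy hy' => hz3 y hy ?_⟩
  exact (hzero F y (hbsub hy)).2 hy'

end Pool.Agent.V5helper18.Ch
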